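import Pool.Agent.Helper74.CO.Goals

/-!
Packet CO-EXB (helper74, project CO): `EXB`.
-/

set_option autoImplicit false

namespace Pool.Agent.Helper28.CO

open Finset Pool.Agent.Helper74.CO

/-- the two digits. -/
def dig28 (m : ℕ × ℕ) (k : ℕ) : ℕ := if k = 0 then m.1 else m.2

theorem t_EXB (hSX : SX) (hSUB : SUB) (hLI : LI) : Pool.Agent.Helper74.CO.EXB := by
  intro E hE
  refine ⟨300 * E ^ 2, ?_⟩
  intro F _ _ _ α X p r _ hp hcard hr hgen hinv hX
  by_cases hne : X.Nonempty
  swap
  · rw [Finset.not_nonempty_iff_eq_empty] at hne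
    rw [hne]
    simp
  set N := #X with hN
  set M := min p (N / (6 * E)) with hM
  have hMp : M ≤ p := min_le_left _ _
  have hM6 : M ≤ N / (6 * E) := min_le_right _ _
  have hM6' : M * (6 * E) ≤ N := (Nat.le_div_iff_mul_le (by omega)).1 hM6
  let S : Finset F := (range M ×ˢ range M).image
    (fun m => ∑ k ∈ range 2, (dig28 m k : F) * α ^ k)
  have hS : #S = M * M := by
    have h1 : #S = #(range M ×ˢ range M) := by
      apply Finset.card_image_of_injOn
      intro m hm m' hm' h
      have hm2 : m.1 < M ∧ m.2 < M := by simpa using hm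
      have hm2' : m'.1 < M ∧ m'.2 < M := by simpa using hm'
      have h2 := hLI F α p r 2 (dig28 m) (dig28 m') hp hgen hcard hr (by
        intro k _
        unfold dig28
        constructor
        · split_ifs <;> omega
        · split_ifs <;> omega) h
      have h3 := h2 0 (by norm_num)
      have h4 := h2 1 (by norm_num)
      simp only [dig28, if_true, one_ne_zero, if_false] at h3 h4
      exact Prod.ext h3 h4
    rw [h1, card_product, card_range]
  have hcost0 : #(X.image (· + α ^ 0) \ X) ≤ E := by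
    have h := hinv 0
    simpa using h
  have hcost1 : #(X.image (· + α ^ 1) \ X) ≤ 2 * E := by
    have h := hinv 1
    have h2 : #(X.image (· + α ^ (1 : ℤ)) \ X) ≤ E * 2 := by simpa using h
    simpa [mul_comm] using h2
  have hcost : ∀ s ∈ S, 2 * #(X.image (· + s) \ X) ≤ #X := by
    intro s hs
    obtain ⟨m, hm, rfl⟩ := Finset.mem_image.1 hs
    have hm2 : m.1 < M ∧ m.2 < M := by simpa using hm
    have h1 := (hSUB F X).2 2 (dig28 m) (fun k => α ^ k)
    have h2 : ∑ k ∈ range 2, dig28 m k * #(X.image (· + α ^ k) \ X) =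
        m.1 * #(X.image (· + α ^ 0) \ X) + m.2 * #(X.image (· + α ^ 1) \ X) := by
      rw [Finset.sum_range_succ, Finset.sum_range_succ, Finset.sum_range_zero]
      simp [dig28]
    have h3 : m.1 * #(X.image (· + α ^ 0) \ X) ≤ M * E := Nat.mul_le_mul hm2.1.le hcost0
    have h4 : m.2 * #(X.image (· + α ^ 1) \ X) ≤ M * (2 * E) := Nat.mul_le_mul hm2.2.le hcost1
    have h5 : 2 * (M * E + M * (2 * E)) = M * (6 * E) := by ring
    have h6 : #(X.image (· + ∑ k ∈ range 2, (dig28 m k : F) * α ^ k) \ X) ≤
        m.1 * #(X.image (· + α ^ 0) \ X) + m.2 * #(X.image (· + α ^ 1) \ X) := h2 ▸ h1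
    calc 2 * #(X.image (· + ∑ k ∈ range 2, (dig28 m k : F) * α ^ k) \ X)
        ≤ 2 * (M * E + M * (2 * E)) := by omega
      _ = M * (6 * E) := h5
      _ ≤ #X := hM6'
  have hfin := hSX F X S hne hcost
  rw [hS] at hfin
  rw [← hN] at hfin
  -- `M = p` is impossible
  have hMeq : M = N / (6 * E) := by
    rcases min_choice p (N / (6 * E)) with h | h
    · exfalso
      rw [← hM] at h
      rw [h] at hfin
      nlinarith
    · rw [hM, h]
  have hN6 : N < (M + 1) * (6 * E) := by
    rw [hMeq]
    have := Nat.lt_succ_iff.2 (le_refl (N / (6 * E)))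
    exact (Nat.div_lt_iff_lt_mul (by omega)).1 this
  have hM12 : M ≤ 12 * E := by
    by_contra hcon
    push Not at hcon
    have h1 : (12 * E + 1) * M ≤ M * M := Nat.mul_le_mul_right _ hcon
    nlinarith
  nlinarith

end Pool.Agent.Helper28.CO
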