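import Pool.Agent.Helper74.CO.Goals

/-!
Packet CO-KLO (helper74, project CO): `KLO`, an elementary bound for Kloosterman sums.
-/

set_option autoImplicit false

set_option linter.unusedSectionVars false

namespace Pool.Agent.Helper28.CO

open Finset Pool.Agent.Helper74.CO

section

variable {F : Type} [Field F] [Fintype F] [DecidableEq F]

/-- the coefficients. -/
noncomputable def cc28 (ψ : AddChar F ℂ) (w : F) : ℂ := if w = 0 then 0 else ψ w⁻¹

theorem norm_psi28 (ψ : AddChar F ℂ) (x : F) : ‖ψ x‖ = 1 := ψ.norm_apply x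

theorem conj_psi28 (ψ : AddChar F ℂ) (x : F) : (starRingEnd ℂ) (ψ x) = ψ (-x) :=
  (AddChar.map_neg_eq_conj ψ x).symm

theorem sum_cc28 (ψ : AddChar F ℂ) (z : F) :
    ∑ w, cc28 ψ w * ψ (z * w) = ∑ y ∈ univ.erase (0 : F), ψ (y + z / y) := by
  rw [← Finset.add_sum_erase univ _ (Finset.mem_univ (0 : F))]
  have h0 : cc28 ψ (0 : F) = 0 := by simp [cc28]
  rw [h0, zero_mul, zero_add]
  refine Finset.sum_nbij' (fun w => w⁻¹) (fun y => y⁻¹) ?_ ?_ ?_ ?_ ?_
  · intro w hw
    simp only [mem_erase, mem_univ, and_true] at hw ⊢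
    exact inv_ne_zero hw
  · intro w hw
    simp only [mem_erase, mem_univ, and_true] at hw ⊢
    exact inv_ne_zero hw
  · intro w _
    exact inv_inv w
  · intro w _
    exact inv_inv w
  · intro w hw
    simp only [mem_erase, mem_univ, and_true] at hw
    unfold cc28
    rw [if_neg hw, ← AddChar.map_add_eq_mul]
    congr 2
    rw [div_inv_eq_mul]

theorem sum_shift28 (ψ : AddChar F ℂ) (b r : F) (hr0 : r ≠ 0) (hr1 : r ≠ 1) :
    ∑ x ∈ univ.erase (0 : F), ψ (x + b / x) * (starRingEnd ℂ) (ψ (r * x + b / (r * x))) =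
      ∑ y ∈ univ.erase (0 : F), ψ (y + (-b * (1 - r) ^ 2 / r) / y) := by
  have h1r : (1 - r) ≠ 0 := sub_ne_zero.2 (Ne.symm hr1)
  refine Finset.sum_nbij' (fun x => (1 - r) * x) (fun y => y / (1 - r)) ?_ ?_ ?_ ?_ ?_
  · intro w hw
    simp only [mem_erase, mem_univ, and_true] at hw ⊢
    exact mul_ne_zero h1r hw
  · intro w hw
    simp only [mem_erase, mem_univ, and_true] at hw ⊢
    exact div_ne_zero hw h1r
  · intro w _
    field_simp
  · intro w _
    field_simp
  · intro x hx
    simp only [mem_erase, mem_univ, and_true] at hx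
    rw [conj_psi28, ← AddChar.map_add_eq_mul]
    congr 1
    field_simp
    ring

end

theorem t_KLO (hGEN : ∀ (F : Type) [Field F] [Fintype F] [DecidableEq F], GEN F)
    (hL2A : ∀ (F : Type) [Field F] [Fintype F] [DecidableEq F], L2A F) :
    ∀ (F : Type) [Field F] [Fintype F] [DecidableEq F], Pool.Agent.Helper74.CO.KLO F := by
  intro F _ _ _ ψ b hψ hb
  have h := hGEN F 1 (fun x => ψ (x + b / x)) {1} (fun r => -b * (1 - r) ^ 2 / r)
    (fun z => ‖∑ w, cc28 ψ w * ψ (z * w)‖) (fun x => (norm_psi28 ψ _).le) (by simp)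
    (fun z => norm_nonneg _) ?_ ?_ ?_
  · have h1 : ∑ x, (1 : MulChar F ℂ) x * ψ (x + b / x) =
        ∑ x ∈ univ.erase (0 : F), ψ (x + b / x) := by
      rw [← Finset.add_sum_erase univ _ (Finset.mem_univ (0 : F))]
      have h2 : (1 : MulChar F ℂ) (0 : F) = 0 := MulChar.map_zero _
      rw [h2, zero_mul, zero_add]
      refine Finset.sum_congr rfl fun x hx => ?_
      simp only [mem_erase, mem_univ, and_true] at hx
      rw [MulChar.one_apply (isUnit_iff_ne_zero.2 hx), one_mul]
    rw [h1] at h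
    exact h
  · refine hL2A F ψ (cc28 ψ) hψ ?_
    intro w
    unfold cc28
    split_ifs
    · simp
    · exact (norm_psi28 ψ _).le
  · intro z
    by_cases hne : ((univ.erase (0 : F)).filter
        (fun r => r ∉ ({1} : Finset F) ∧ -b * (1 - r) ^ 2 / r = z)).Nonempty
    · obtain ⟨r₁, hr₁⟩ := hne
      have hsub : (univ.erase (0 : F)).filter
        (fun r => r ∉ ({1} : Finset F) ∧ -b * (1 - r) ^ 2 / r = z) ⊆
          {r₁, (2 * b - z) / b - r₁} := by
        intro r hr
        simp only [mem_filter, mem_erase, mem_univ, and_true, mem_singleton] at hr hr₁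
        obtain ⟨h0, -, h1⟩ := hr
        obtain ⟨h0', -, h1'⟩ := hr₁
        simp only [mem_insert, mem_singleton]
        by_cases hrr : r = r₁
        · exact Or.inl hrr
        · refine Or.inr ?_
          rw [div_eq_iff h0] at h1
          rw [div_eq_iff h0'] at h1'
          have h2 : (r - r₁) * (b * (r + r₁) + z - 2 * b) = 0 := by
            linear_combination h1' - h1
          rcases mul_eq_zero.1 h2 with h3 | h3
          · exact absurd (sub_eq_zero.1 h3) hrr
          · field_simp
            linear_combination h3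
      exact (Finset.card_le_card hsub).trans Finset.card_le_two
    · rw [Finset.not_nonempty_iff_eq_empty] at hne
      have : ((univ.erase (0 : F)).filter
        (fun r => r ∉ ({1} : Finset F) ∧ (fun r => -b * (1 - r) ^ 2 / r) r = z)) = ∅ := hne
      rw [this]
      simp
  · intro r hr0 hr1
    simp only [mem_singleton] at hr1
    have h1 := sum_shift28 ψ b r hr0 hr1
    show ‖∑ x ∈ univ.erase (0 : F), ψ (x + b / x) * (starRingEnd ℂ) (ψ (r * x + b / (r * x)))‖ ≤
      ‖∑ w, cc28 ψ w * ψ ((-b * (1 - r) ^ 2 / r) * w)‖ + 2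
    rw [h1, sum_cc28]
    linarith

end Pool.Agent.Helper28.CO
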